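import Pool.Agent.Helper7.DivSub.Degree

/-!
# Division subalgebras of large tower degree have finite left index

Let `A` be a finitely generated `K`-algebra with quotient division algebra `Q`, and let `D ⊆ Q` be a
division subalgebra containing a tower of division subalgebras, starting from one that contains `K`,
of total degree `e > GKdim A - 1`; here a step contributes the growth degree of the values of a
valuation trivial on the smaller algebra, or contributes `1` if it adjoins a left transcendental
element of Ore type.  Then `Q` is finite-dimensional as a left `D`-vector space.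
-/

open Module

namespace Pool.Agent.Results.MP_7a070a_al.TowerDegreeIndex

open Pool.Agent.Helper7.DivSub

theorem result
    {K A Q : Type*} [Field K] [Ring A] [Algebra K A] [Algebra.FiniteType K A]
    [DivisionRing Q] [Algebra K Q] (ι : A →ₐ[K] Q) (hι : IsQuotientDivisionAlgebra ι)
    (D : Subfield Q) (e : ℝ) (he : 0 < e) (hD : TowerDegree K D e)
    (hgk : GKdim K A < ((e + 1 : ℝ) : EReal)) :
    Module.Finite D Q := by
  obtain ⟨V, hV, h1, hfrac, hle⟩ := exists_V ι hι
  obtain ⟨hK, h0 | ⟨_, L, hL, hLD, c, hc, hiso⟩⟩ := hD.hasIso
  · exact absurd h0 he.ne'
  · exact core D hK V h1 hfrac L hLD e c he hc hiso (hle.trans_lt hgk)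

end Pool.Agent.Results.MP_7a070a_al.TowerDegreeIndex
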